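import Pool.Agent.Helper80.TE.Form
import Pool.Agent.Helper80.NF.Spec
import Pool.Agent.Helper20.PV.Wild

/-!
# Two equivalence relations: universality
-/

set_option autoImplicit false

namespace Pool.Agent.Helper80.NF

open Pool.Agent.Helper29.C2 Pool.Agent.Helper20.Spectra

/-- the spectra of the two-variable sentences with counting over a class of backgrounds -/
def C2Spec {Λ : Type} (bg : ∀ A : Type, (Λ → A → A → Prop) → Prop) (S : Set ℕ) : Prop :=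
  ∃ (U V : Type) (_ : Finite U) (_ : Finite V) (Φ : Fm Λ U V),
    S = {n : ℕ | 1 ≤ n ∧ ∃ M : Str Λ U V (Fin n), bg (Fin n) M.ord ∧ ∀ e, Sat M Φ e}

lemma isSpectrum_of_c2Spec {Λ : Type} [Finite Λ] {bg : ∀ A : Type, (Λ → A → A → Prop) → Prop} (hbg : Univ3 bg)
    {S : Set ℕ} (h : C2Spec bg S) : IsSpectrum S := by
  obtain ⟨U, V, _, _, Φ, rfl⟩ := h
  exact isSpectrum_c2 hbg Φ

end Pool.Agent.Helper80.NF

namespace Pool.Agent.Helper80.TE

open Pool.Agent.Helper29.Prefix Pool.Agent.Helper29.C2 Pool.Agent.Helper80.NF Pool.Agent.Helper20.Spectra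
  Pool.Agent.Helper20.PV

/-- two equivalence relations -/
def TwoEq (A : Type) (ord : Fin 2 → A → A → Prop) : Prop := Equivalence (ord 0) ∧ Equivalence (ord 1)

lemma univ3_twoEq : Univ3 TwoEq := by
  refine ⟨fun o _ => (o 0 0 0 ∧ (o 0 0 1 → o 0 1 0) ∧ (o 0 0 1 → o 0 1 2 → o 0 0 2)) ∧
    (o 1 0 0 ∧ (o 1 0 1 → o 1 1 0) ∧ (o 1 0 1 → o 1 1 2 → o 1 0 2)), fun A ord => ?_⟩
  constructor
  · rintro ⟨h0, h1⟩ v
    exact ⟨⟨h0.refl _, fun h => h0.symm h, fun h h' => h0.trans h h'⟩,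
      ⟨h1.refl _, fun h => h1.symm h, fun h h' => h1.trans h h'⟩⟩
  · intro h
    refine ⟨⟨fun x => (h (fun _ => x)).1.1, fun {x y} hxy => (h ![x, y, x]).1.2.1 hxy,
      fun {x y z} hxy hyz => (h ![x, y, z]).1.2.2 hxy hyz⟩,
      ⟨fun x => (h (fun _ => x)).2.1, fun {x y} hxy => (h ![x, y, x]).2.2.1 hxy,
      fun {x y z} hxy hyz => (h ![x, y, z]).2.2.2 hxy hyz⟩⟩

theorem univ_twoEq : Univ (C2Spec TwoEq) := by
  refine univ_of_tiles fun q W => ?_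
  obtain ⟨Φ, hΦ⟩ := te_sentence W
  refine ⟨Polynomial.C 4 * Polynomial.X ^ 3, szTE W, ⟨Col q, Fin 3, inferInstance, inferInstance, Φ, hΦ⟩,
    fun N hN => ?_⟩
  rw [te_sizes W hN]
  simp

/-- The two-variable logic with counting and two equivalence relations. -/
theorem wild_twoEq :
    (∃ U : Set ℕ, C2Spec TwoEq U ∧ ∀ A : Set ℕ, IsSpectrum A ↔
      ∃ h : Polynomial ℕ, A = {n : ℕ | 1 ≤ n ∧ h.eval n ∈ U}) ∧
    ((∀ A : Set ℕ, C2Spec TwoEq A → IsRudimentary A) ↔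
      ∀ A : Set ℕ, IsSpectrum A ↔ (IsRudimentary A ∧ 0 ∉ A)) :=
  wild_of_univ univ_twoEq fun _ h => isSpectrum_of_c2Spec univ3_twoEq h

end Pool.Agent.Helper80.TE
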