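import Pool.Agent.Helper80.TE.Complete
import Pool.Agent.Helper80.NF.Form

/-!
# Two equivalence relations: the sentence
-/

set_option autoImplicit false

namespace Pool.Agent.Helper80.TE

open Pool.Agent.Helper29.Prefix Pool.Agent.Helper29.C2 Pool.Agent.Helper80.NF

instance {q : ℕ} : Finite (Col q) := by
  refine Finite.of_injective (β := (Fin 4 × Fin 3 × Fin q) × (Bool × Bool) × (Bool × Bool))
    (fun c => ((c.role, c.kind, c.tile), (c.fl, c.fr), (c.fd, c.fu))) ?_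
  rintro ⟨a1, a2, a3, a4, a5, a6, a7⟩ ⟨b1, b2, b3, b4, b5, b6, b7⟩ h
  simp only [Prod.mk.injEq] at h
  obtain ⟨⟨rfl, rfl, rfl⟩, ⟨rfl, rfl⟩, rfl, rfl⟩ := h
  rfl

/-- conditions on pairs -/
def uTE {q : ℕ} (W : Wang (Fin q)) (c c' : Col q) (f : Fct (Fin 2) (Fin 3)) : Prop :=
  One W c ∧ (f.o 0 → Same c c') ∧ (c.role = c'.role → (f.o 0 ↔ f.o 1)) ∧ (f.o 1 → Nb W c c') ∧
  (f.b 0 → f.o 0 ∧ c.kind = c'.kind ∧ f.b' 0) ∧ (f.b 1 → f.o 1 ∧ Lk c c') ∧ (f.b 2 → f.o 0 ∧ Cn c 1 ∧ Cn c' 2)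

/-- guards -/
def gTE {q : ℕ} : (Fin 4 ⊕ Fin 4) ⊕ Fin 6 → Col q → Prop
  | Sum.inl (Sum.inl _), _ => True
  | Sum.inl (Sum.inr r), c => c.kind ≠ 0 ∧ r ≠ c.role
  | Sum.inr 0, c => Ou c
  | Sum.inr 1, c => In c ∧ c.kind ≠ 0
  | Sum.inr 2, c => In c ∧ c.kind = 0
  | Sum.inr 3, _ => True
  | Sum.inr 4, c => Cn c 1
  | Sum.inr 5, c => Cn c 2

/-- witnesses -/
def wTE {q : ℕ} : (Fin 4 ⊕ Fin 4) ⊕ Fin 6 → Col q → Col q → Fct (Fin 2) (Fin 3) → Prop
  | Sum.inl (Sum.inl r), _, c', f => f.o 0 ∧ c'.role = r ∧ c'.kind = 0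
  | Sum.inl (Sum.inr r), _, c', f => f.b 0 ∧ c'.role = r
  | Sum.inr 0, _, _, f => f.b 1
  | Sum.inr 1, _, _, f => f.b' 1
  | Sum.inr 2, c, c', f => f.o' 1 ∧ c'.kind = 0 ∧ Opp c' c
  | Sum.inr 3, _, c', _ => c'.role = 0 ∧ c'.kind = 0 ∧ c'.fl = true ∧ c'.fd = true
  | Sum.inr 4, _, _, f => f.b 2
  | Sum.inr 5, _, _, f => f.b' 2

lemma teAx_iff {q : ℕ} {W : Wang (Fin q)} {A U : Type} [Nonempty A] (M : Str (Fin 2) U (Fin 3) A) (c : A → Col q)
    (h0 : Equivalence (M.ord 0)) (h1 : Equivalence (M.ord 1)) :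
    TEAx W (M.ord 0) (M.ord 1) (M.bin 0) (M.bin 1) (M.bin 2) c ↔
      (∀ x y, uTE W (c x) (c y) (fact M x y)) ∧ ∀ i x, gTE i (c x) → ∃! y, wTE i (c x) (c y) (fact M x y) := by
  constructor
  · intro H
    refine ⟨fun x y => ⟨H.one x, H.same x y, H.cell x y, H.nb x y, H.fF x y, H.gG x y, H.qQ x y⟩, ?_⟩
    rintro ((r | r) | i) x hg
    · exact H.head x r
    · exact H.F1 x hg.1 r hg.2
    · fin_cases i
      · exact H.G1 x hg
      · exact H.G2 x hg.1 hg.2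
      · exact H.H2 x hg.1 hg.2
      · exact H.org
      · exact H.Q1 x hg
      · exact H.Q2 x hg
  · rintro ⟨hu, hw⟩
    obtain ⟨a⟩ := ‹Nonempty A›
    exact
    { e1 := h0
      e2 := h1
      one := fun x => (hu x x).1
      same := fun x y => (hu x y).2.1
      cell := fun x y => (hu x y).2.2.1
      nb := fun x y => (hu x y).2.2.2.1
      head := fun x r => hw (Sum.inl (Sum.inl r)) x trivial
      fF := fun x y => (hu x y).2.2.2.2.1
      F1 := fun x hk r hr => hw (Sum.inl (Sum.inr r)) x ⟨hk, hr⟩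
      gG := fun x y => (hu x y).2.2.2.2.2.1
      G1 := fun x h => hw (Sum.inr 0) x h
      G2 := fun x h h' => hw (Sum.inr 1) x ⟨h, h'⟩
      H2 := fun x h h' => hw (Sum.inr 2) x ⟨h, h'⟩
      org := hw (Sum.inr 3) a trivial
      qQ := fun x y => (hu x y).2.2.2.2.2.2
      Q1 := fun x h => hw (Sum.inr 4) x h
      Q2 := fun x h => hw (Sum.inr 5) x h }

/-- the sentence -/
theorem te_formula {q : ℕ} (W : Wang (Fin q)) : ∃ Φ : Fm (Fin 2) (Col q) (Fin 3),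
    ∀ (A : Type) [Nonempty A] (M : Str (Fin 2) (Col q) (Fin 3) A), Equivalence (M.ord 0) → Equivalence (M.ord 1) →
      ((∀ e, Sat M Φ e) ↔ ∃ c : A → Col q, (∀ x P, M.un P x ↔ P = c x) ∧
        TEAx W (M.ord 0) (M.ord 1) (M.bin 0) (M.bin 1) (M.bin 2) c) := by
  obtain ⟨Φ, hΦ⟩ := nf_unique (uTE W) (gTE (q := q)) wTE
  refine ⟨Φ, fun A _ M h0 h1 => ?_⟩
  rw [hΦ]
  exact exists_congr fun c => and_congr_right fun _ => (teAx_iff M c h0 h1).symm

/-- there is a two-variable sentence whose models with two equivalence relations have the sizes `szTE W` -/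
theorem te_sentence {q : ℕ} (W : Wang (Fin q)) : ∃ Φ : Fm (Fin 2) (Col q) (Fin 3),
    szTE W = {n : ℕ | 1 ≤ n ∧ ∃ M : Str (Fin 2) (Col q) (Fin 3) (Fin n),
      (Equivalence (M.ord 0) ∧ Equivalence (M.ord 1)) ∧ ∀ e, Sat M Φ e} := by
  obtain ⟨Φ, hΦ⟩ := te_formula W
  refine ⟨Φ, Set.ext fun n => ?_⟩
  constructor
  · rintro ⟨hn, M, _, E1, E2, F, G, Q, c, hcard, H⟩
    refine ⟨hn, ?_⟩
    haveI : Nonempty (Fin n) := ⟨⟨0, hn⟩⟩
    have e : Fin n ≃ M := (Fintype.equivFinOfCardEq hcard).symm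
    refine ⟨⟨fun i x y => if i = 0 then E1 (e x) (e y) else E2 (e x) (e y), fun P x => P = c (e x),
      fun i x y => if i = 0 then F (e x) (e y) else if i = 1 then G (e x) (e y) else Q (e x) (e y)⟩, ?_⟩
    have k1 : Equivalence fun x y => E1 (e x) (e y) :=
      ⟨fun x => H.e1.refl _, fun h => H.e1.symm h, fun h h' => H.e1.trans h h'⟩
    have k2 : Equivalence fun x y => E2 (e x) (e y) :=
      ⟨fun x => H.e2.refl _, fun h => H.e2.symm h, fun h h' => H.e2.trans h h'⟩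
    have tr : ∀ (p : M → Prop), (∃! y, p y) → ∃! y, p (e y) := by
      rintro p ⟨y, hy, hy'⟩
      refine ⟨e.symm y, by simpa using hy, fun z hz => ?_⟩
      rw [← hy' _ hz, e.symm_apply_apply]
    refine ⟨⟨k1, k2⟩, (hΦ (Fin n) _ k1 k2).2 ⟨fun x => c (e x), fun x P => Iff.rfl, ?_⟩⟩
    exact
    { e1 := k1
      e2 := k2
      one := fun x => H.one _
      same := fun x y => H.same _ _
      cell := fun x y => H.cell _ _
      nb := fun x y => H.nb _ _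
      head := fun x r => tr _ (H.head _ r)
      fF := fun x y => H.fF _ _
      F1 := fun x hk r hr => tr _ (H.F1 _ hk r hr)
      gG := fun x y => H.gG _ _
      G1 := fun x h => tr _ (H.G1 _ h)
      G2 := fun x h h' => tr _ (H.G2 _ h h')
      H2 := fun x h h' => tr _ (H.H2 _ h h')
      org := tr _ H.org
      qQ := fun x y => H.qQ _ _
      Q1 := fun x h => tr _ (H.Q1 _ h)
      Q2 := fun x h => tr _ (H.Q2 _ h) }
  · rintro ⟨hn, M, ⟨h0, h1⟩, hs⟩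
    haveI : Nonempty (Fin n) := ⟨⟨0, hn⟩⟩
    obtain ⟨c, -, H⟩ := (hΦ (Fin n) M h0 h1).1 hs
    exact ⟨hn, Fin n, inferInstance, _, _, _, _, _, c, Fintype.card_fin n, H⟩

end Pool.Agent.Helper80.TE
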