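import Pool.Agent.Helper80.TE.Sound2

/-!
# Two equivalence relations: from a tiling to a model
-/

set_option autoImplicit false

namespace Pool.Agent.Helper80.TE

open Pool.Agent.Helper29.Prefix

/-- the elements -/
abbrev El (N : ℕ) : Type := Σ p : Fin N × Fin N, Fin 4 × Option (Fin p.1 ⊕ Fin p.2)

namespace El

variable {N : ℕ}

/-- column -/
def X (t : El N) : ℕ := t.1.1

/-- row -/
def Y (t : El N) : ℕ := t.1.2

/-- role -/
def ro (t : El N) : Fin 4 := t.2.1

/-- kind -/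
def kd (t : El N) : Fin 3 :=
  match t.2.2 with
  | none => 0
  | some (Sum.inl _) => 1
  | some (Sum.inr _) => 2

/-- number in the cell -/
def ix (t : El N) : ℕ :=
  match t.2.2 with
  | none => 0
  | some (Sum.inl i) => i
  | some (Sum.inr i) => i

lemma card_El : Fintype.card (El N) = ∑ p : Fin N × Fin N, 4 * (1 + p.1.1 + p.2.1) := by
  rw [Fintype.card_sigma]
  refine Finset.sum_congr rfl fun p _ => ?_
  rw [Fintype.card_prod, Fintype.card_option, Fintype.card_sum, Fintype.card_fin, Fintype.card_fin, Fintype.card_fin]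
  ring

lemma val (t : El N) : t.X < N ∧ t.Y < N ∧ (t.kd = 0 → t.ix = 0) ∧ (t.kd = 1 → t.ix < t.X) ∧ (t.kd = 2 → t.ix < t.Y) := by
  obtain ⟨⟨x, y⟩, r, o⟩ := t
  refine ⟨x.2, y.2, ?_⟩
  rcases o with _ | i | i
  · exact ⟨fun _ => rfl, fun h => absurd h (by simp [kd]), fun h => absurd h (by simp [kd])⟩
  · exact ⟨fun h => absurd h (by simp [kd]), fun _ => i.2, fun h => absurd h (by simp [kd])⟩
  · exact ⟨fun h => absurd h (by simp [kd]), fun h => absurd h (by simp [kd]), fun _ => i.2⟩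

lemma mk (x y : ℕ) (r : Fin 4) (k : Fin 3) (i : ℕ) (hx : x < N) (hy : y < N) (h0 : k = 0 → i = 0)
    (h1 : k = 1 → i < x) (h2 : k = 2 → i < y) :
    ∃ t : El N, t.X = x ∧ t.Y = y ∧ t.ro = r ∧ t.kd = k ∧ t.ix = i := by
  have : k = 0 ∨ k = 1 ∨ k = 2 := by clear h0 h1 h2; revert k; decide
  rcases this with h | h | h
  · exact ⟨⟨(⟨x, hx⟩, ⟨y, hy⟩), r, none⟩, rfl, rfl, rfl, h.symm, (h0 h).symm⟩
  · exact ⟨⟨(⟨x, hx⟩, ⟨y, hy⟩), r, some (Sum.inl ⟨i, h1 h⟩)⟩, rfl, rfl, rfl, h.symm, rfl⟩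
  · exact ⟨⟨(⟨x, hx⟩, ⟨y, hy⟩), r, some (Sum.inr ⟨i, h2 h⟩)⟩, rfl, rfl, rfl, h.symm, rfl⟩

lemma ext' {t t' : El N} (h1 : t.X = t'.X) (h2 : t.Y = t'.Y) (h3 : t.ro = t'.ro) (h4 : t.kd = t'.kd)
    (h5 : t.ix = t'.ix) : t = t' := by
  obtain ⟨⟨x, y⟩, r, o⟩ := t
  obtain ⟨⟨x', y'⟩, r', o'⟩ := t'
  obtain rfl : x = x' := Fin.ext h1
  obtain rfl : y = y' := Fin.ext h2
  obtain rfl : r = r' := h3
  have : o = o' := by
    rcases o with _ | i | i <;> rcases o' with _ | j | j
    · rfl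
    · exact absurd h4 (by simp [kd])
    · exact absurd h4 (by simp [kd])
    · exact absurd h4 (by simp [kd])
    · rw [Fin.ext (show (i : ℕ) = j from h5)]
    · exact absurd h4 (by simp [kd])
    · exact absurd h4 (by simp [kd])
    · exact absurd h4 (by simp [kd])
    · rw [Fin.ext (show (i : ℕ) = j from h5)]
  rw [this]

end El

/-- same point -/
def mE1 (N : ℕ) (t t' : El N) : Prop := t.X = t'.X ∧ t.Y = t'.Y

/-- the name of the edge of a cell -/
def key {N : ℕ} (t : El N) : ℕ × ℕ × ℕ :=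
  if t.ro = 0 then (0, t.X + 1, t.Y) else if t.ro = 1 then (0, t.X, t.Y) else
    if t.ro = 2 then (1, t.X, t.Y + 1) else (1, t.X, t.Y)

/-- same edge -/
def mE2 (N : ℕ) (t t' : El N) : Prop := key t = key t'

/-- the same number in another cell -/
def mF (N : ℕ) (t t' : El N) : Prop := t.X = t'.X ∧ t.Y = t'.Y ∧ t.kd = t'.kd ∧ t.ix = t'.ix

/-- links of neighbours -/
def mG (N : ℕ) (t t' : El N) : Prop :=
  (t.ro = 0 ∧ t'.ro = 1 ∧ t'.X = t.X + 1 ∧ t'.Y = t.Y ∧ ((t.kd = 0 ∧ t'.kd = 1 ∧ t'.ix = 0) ∨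
    (t.kd = 1 ∧ t'.kd = 1 ∧ t'.ix = t.ix + 1) ∨ (t.kd = 2 ∧ t'.kd = 2 ∧ t'.ix = t.ix))) ∨
  (t.ro = 2 ∧ t'.ro = 3 ∧ t'.X = t.X ∧ t'.Y = t.Y + 1 ∧ ((t.kd = 0 ∧ t'.kd = 2 ∧ t'.ix = 0) ∨
    (t.kd = 2 ∧ t'.kd = 2 ∧ t'.ix = t.ix + 1) ∨ (t.kd = 1 ∧ t'.kd = 1 ∧ t'.ix = t.ix)))

/-- the corner is on the diagonal -/
def mQ (N : ℕ) (t t' : El N) : Prop :=
  t.X = N - 1 ∧ t.Y = N - 1 ∧ t'.X = N - 1 ∧ t'.Y = N - 1 ∧ t.ro = 0 ∧ t'.ro = 0 ∧ t.kd = 1 ∧ t'.kd = 2 ∧ t.ix = t'.ix

/-- the colours -/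
def mc {q : ℕ} (N : ℕ) (f : ℕ → ℕ → Fin q) (t : El N) : Col q :=
  ⟨t.ro, t.kd, f t.X t.Y, decide (t.X = 0), decide (t.X = N - 1), decide (t.Y = 0), decide (t.Y = N - 1)⟩

lemma key0 {N : ℕ} {t : El N} (h : t.ro = 0) : key t = (0, t.X + 1, t.Y) := by
  unfold key; rw [if_pos h]

lemma key1 {N : ℕ} {t : El N} (h : t.ro = 1) : key t = (0, t.X, t.Y) := by
  unfold key; rw [if_neg (by rw [h]; decide), if_pos h]

lemma key2 {N : ℕ} {t : El N} (h : t.ro = 2) : key t = (1, t.X, t.Y + 1) := by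
  unfold key; rw [if_neg (by rw [h]; decide), if_neg (by rw [h]; decide), if_pos h]

lemma key3 {N : ℕ} {t : El N} (h : t.ro = 3) : key t = (1, t.X, t.Y) := by
  unfold key; rw [if_neg (by rw [h]; decide), if_neg (by rw [h]; decide), if_neg (by rw [h]; decide)]

lemma ro_cases {N : ℕ} (t : El N) : t.ro = 0 ∨ t.ro = 1 ∨ t.ro = 2 ∨ t.ro = 3 := by
  generalize t.ro = r; revert r; decide

lemma kd_cases {N : ℕ} (t : El N) : t.kd = 0 ∨ t.kd = 1 ∨ t.kd = 2 := by
  generalize t.kd = r; revert r; decide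

theorem te_model {q : ℕ} {W : Wang (Fin q)} {N : ℕ} (hN : 1 ≤ N) (f : ℕ → ℕ → Fin q)
    (hR : ∀ x y, x + 1 < N → y < N → W.R (f x y) (f (x + 1) y))
    (hU : ∀ x y, x < N → y + 1 < N → W.U (f x y) (f x (y + 1)))
    (hl : ∀ y, y < N → W.l (f 0 y)) (hr : ∀ y, y < N → W.r (f (N - 1) y))
    (hb : ∀ x, x < N → W.b (f x 0)) (ht : ∀ x, x < N → W.t (f x (N - 1))) (hc : W.c (f 0 0)) :
    TEAx W (mE1 N) (mE2 N) (mF N) (mG N) (mQ N) (mc N f) := by
  constructor
  · exact ⟨fun t => ⟨rfl, rfl⟩, fun h => ⟨h.1.symm, h.2.symm⟩, fun h h' => ⟨h.1.trans h'.1, h.2.trans h'.2⟩⟩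
  · exact ⟨fun t => rfl, fun h => Eq.symm h, fun h h' => Eq.trans h h'⟩
  · -- one
    intro t
    obtain ⟨v1, v2, v3, v4, v5⟩ := t.val
    refine ⟨fun h => ?_, fun h => ?_, fun h => ?_, fun h => ?_, fun h h' => ?_⟩
    · have h0 : t.X = 0 := of_decide_eq_true h
      refine ⟨?_, fun hk => ?_⟩
      · show W.l (f t.X t.Y)
        rw [h0]
        exact hl _ v2
      · have := v4 hk
        omega
    · have h0 : t.X = N - 1 := of_decide_eq_true h
      show W.r (f t.X t.Y)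
      rw [h0]
      exact hr _ v2
    · have h0 : t.Y = 0 := of_decide_eq_true h
      refine ⟨?_, fun hk => ?_⟩
      · show W.b (f t.X t.Y)
        rw [h0]
        exact hb _ v1
      · have := v5 hk
        omega
    · have h0 : t.Y = N - 1 := of_decide_eq_true h
      show W.t (f t.X t.Y)
      rw [h0]
      exact ht _ v1
    · have h0 : t.X = 0 := of_decide_eq_true h
      have h1 : t.Y = 0 := of_decide_eq_true h'
      show W.c (f t.X t.Y)
      rw [h0, h1]
      exact hc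
  · -- same
    rintro t t' ⟨h1, h2⟩
    unfold Same mc
    simp only [h1, h2, and_self]
  · -- cell
    intro t t' hro
    have hro' : t.ro = t'.ro := hro
    unfold mE1 mE2
    rcases ro_cases t with h | h | h | h
    · rw [key0 h, key0 (hro'.symm.trans h)]
      simp
    · rw [key1 h, key1 (hro'.symm.trans h)]
      simp
    · rw [key2 h, key2 (hro'.symm.trans h)]
      simp
    · rw [key3 h, key3 (hro'.symm.trans h)]
      simp
  · -- nb
    intro t t' hE
    obtain ⟨v1, v2, -⟩ := t.val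
    obtain ⟨v1', v2', -⟩ := t'.val
    refine ⟨fun h0 h1 => ?_, fun h0 h1 => ?_⟩
    · unfold mE2 at hE
      rw [key0 h0, key1 h1, Prod.mk.injEq, Prod.mk.injEq] at hE
      refine ⟨decide_eq_false (by omega), decide_eq_false (by omega), ?_, ?_, ?_⟩
      · show decide (t.Y = 0) = decide (t'.Y = 0)
        rw [hE.2.2]
      · show decide (t.Y = N - 1) = decide (t'.Y = N - 1)
        rw [hE.2.2]
      · show W.R (f t.X t.Y) (f t'.X t'.Y)
        rw [← hE.2.1, ← hE.2.2]
        exact hR _ _ (by omega) v2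
    · unfold mE2 at hE
      rw [key2 h0, key3 h1, Prod.mk.injEq, Prod.mk.injEq] at hE
      refine ⟨decide_eq_false (by omega), decide_eq_false (by omega), ?_, ?_, ?_⟩
      · show decide (t.X = 0) = decide (t'.X = 0)
        rw [hE.2.1]
      · show decide (t.X = N - 1) = decide (t'.X = N - 1)
        rw [hE.2.1]
      · show W.U (f t.X t.Y) (f t'.X t'.Y)
        rw [← hE.2.1, ← hE.2.2]
        exact hU _ _ v1 (by omega)
  · -- head
    intro t r
    obtain ⟨v1, v2, -⟩ := t.val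
    obtain ⟨s, s1, s2, s3, s4, s5⟩ := El.mk t.X t.Y r 0 0 v1 v2 (fun _ => rfl) (fun h => absurd h (by decide))
      (fun h => absurd h (by decide))
    refine ⟨s, ⟨⟨s1.symm, s2.symm⟩, s3, s4⟩, ?_⟩
    rintro s' ⟨⟨a1, a2⟩, a3, a4⟩
    have a3' : s'.ro = r := a3
    have a4' : s'.kd = 0 := a4
    exact El.ext' (by omega) (by omega) (by rw [s3, a3']) (by rw [s4, a4']) (by rw [s'.val.2.2.1 a4', s5])
  · -- fF
    rintro t t' ⟨h1, h2, h3, h4⟩
    exact ⟨⟨h1, h2⟩, h3, h1.symm, h2.symm, h3.symm, h4.symm⟩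
  · -- F1
    intro t hk r hr'
    obtain ⟨v1, v2, v3, v4, v5⟩ := t.val
    obtain ⟨s, s1, s2, s3, s4, s5⟩ := El.mk t.X t.Y r t.kd t.ix v1 v2 v3 v4 v5
    refine ⟨s, ⟨⟨s1.symm, s2.symm, s4.symm, s5.symm⟩, s3⟩, ?_⟩
    rintro s' ⟨⟨a1, a2, a3, a4⟩, a5⟩
    have a5' : s'.ro = r := a5
    exact El.ext' (by omega) (by omega) (by rw [s3, a5']) (by rw [s4, a3]) (by omega)
  · -- gG
    rintro t t' (⟨h1, h2, h3, h4, h5⟩ | ⟨h1, h2, h3, h4, h5⟩)
    · refine ⟨?_, Or.inl ⟨h1, h2, ?_, ?_⟩⟩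
      · unfold mE2
        rw [key0 h1, key1 h2, h3, h4]
      · show t'.kd ≠ 0
        rcases h5 with h5 | h5 | h5 <;> rw [h5.2.1] <;> decide
      · show t.kd = 2 ↔ t'.kd = 2
        rcases h5 with h5 | h5 | h5 <;> rw [h5.2.1, h5.1]
        decide
    · refine ⟨?_, Or.inr ⟨h1, h2, ?_, ?_⟩⟩
      · unfold mE2
        rw [key2 h1, key3 h2, h3, h4]
      · show t'.kd ≠ 0
        rcases h5 with h5 | h5 | h5 <;> rw [h5.2.1] <;> decide
      · show t.kd = 1 ↔ t'.kd = 1
        rcases h5 with h5 | h5 | h5 <;> rw [h5.2.1, h5.1]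
        decide
  · -- G1
    intro t ho
    obtain ⟨v1, v2, v3, v4, v5⟩ := t.val
    rcases ho with ⟨h0, h1⟩ | ⟨h0, h1⟩
    · have h0' : t.ro = 0 := h0
      have h1' : t.X ≠ N - 1 := of_decide_eq_false h1
      rcases kd_cases t with hk | hk | hk
      · obtain ⟨s, s1, s2, s3, s4, s5⟩ := El.mk (N := N) (t.X + 1) t.Y 1 1 0 (by omega) v2 (by decide) (by omega) (by omega)
        refine ⟨s, Or.inl ⟨h0', s3, s1, s2, Or.inl ⟨hk, s4, s5⟩⟩, ?_⟩
        rintro s' (⟨-, a2, a3, a4, a5⟩ | ⟨a1, -⟩)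
        · rcases a5 with a5 | a5 | a5
          · exact El.ext' (by omega) (by omega) (by rw [a2, s3]) (by rw [s4, a5.2.1]) (by omega)
          · exact absurd (hk.symm.trans a5.1) (by decide)
          · exact absurd (hk.symm.trans a5.1) (by decide)
        · exact absurd (h0'.symm.trans a1) (by decide)
      · obtain ⟨s, s1, s2, s3, s4, s5⟩ := El.mk (N := N) (t.X + 1) t.Y 1 1 (t.ix + 1) (by omega) v2
          (fun h => absurd h (by decide)) (by have := v4 hk; omega) (fun h => absurd h (by decide))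
        refine ⟨s, Or.inl ⟨h0', s3, s1, s2, Or.inr (Or.inl ⟨hk, s4, s5⟩)⟩, ?_⟩
        rintro s' (⟨-, a2, a3, a4, a5⟩ | ⟨a1, -⟩)
        · rcases a5 with a5 | a5 | a5
          · exact absurd (hk.symm.trans a5.1) (by decide)
          · exact El.ext' (by omega) (by omega) (by rw [a2, s3]) (by rw [s4, a5.2.1]) (by omega)
          · exact absurd (hk.symm.trans a5.1) (by decide)
        · exact absurd (h0'.symm.trans a1) (by decide)
      · obtain ⟨s, s1, s2, s3, s4, s5⟩ := El.mk (N := N) (t.X + 1) t.Y 1 2 t.ix (by omega) v2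
          (fun h => absurd h (by decide)) (fun h => absurd h (by decide)) (fun _ => v5 hk)
        refine ⟨s, Or.inl ⟨h0', s3, s1, s2, Or.inr (Or.inr ⟨hk, s4, s5⟩)⟩, ?_⟩
        rintro s' (⟨-, a2, a3, a4, a5⟩ | ⟨a1, -⟩)
        · rcases a5 with a5 | a5 | a5
          · exact absurd (hk.symm.trans a5.1) (by decide)
          · exact absurd (hk.symm.trans a5.1) (by decide)
          · exact El.ext' (by omega) (by omega) (by rw [a2, s3]) (by rw [s4, a5.2.1]) (by omega)
        · exact absurd (h0'.symm.trans a1) (by decide)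
    · have h0' : t.ro = 2 := h0
      have h1' : t.Y ≠ N - 1 := of_decide_eq_false h1
      rcases kd_cases t with hk | hk | hk
      · obtain ⟨s, s1, s2, s3, s4, s5⟩ := El.mk (N := N) t.X (t.Y + 1) 3 2 0 v1 (by omega) (by decide) (fun h => absurd h (by decide)) (by omega)
        refine ⟨s, Or.inr ⟨h0', s3, s1, s2, Or.inl ⟨hk, s4, s5⟩⟩, ?_⟩
        rintro s' (⟨a1, -⟩ | ⟨-, a2, a3, a4, a5⟩)
        · exact absurd (h0'.symm.trans a1) (by decide)
        · rcases a5 with a5 | a5 | a5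
          · exact El.ext' (by omega) (by omega) (by rw [a2, s3]) (by rw [s4, a5.2.1]) (by omega)
          · exact absurd (hk.symm.trans a5.1) (by decide)
          · exact absurd (hk.symm.trans a5.1) (by decide)
      · obtain ⟨s, s1, s2, s3, s4, s5⟩ := El.mk (N := N) t.X (t.Y + 1) 3 1 t.ix v1 (by omega)
          (fun h => absurd h (by decide)) (fun _ => v4 hk) (fun h => absurd h (by decide))
        refine ⟨s, Or.inr ⟨h0', s3, s1, s2, Or.inr (Or.inr ⟨hk, s4, s5⟩)⟩, ?_⟩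
        rintro s' (⟨a1, -⟩ | ⟨-, a2, a3, a4, a5⟩)
        · exact absurd (h0'.symm.trans a1) (by decide)
        · rcases a5 with a5 | a5 | a5
          · exact absurd (hk.symm.trans a5.1) (by decide)
          · exact absurd (hk.symm.trans a5.1) (by decide)
          · exact El.ext' (by omega) (by omega) (by rw [a2, s3]) (by rw [s4, a5.2.1]) (by omega)
      · obtain ⟨s, s1, s2, s3, s4, s5⟩ := El.mk (N := N) t.X (t.Y + 1) 3 2 (t.ix + 1) v1 (by omega)
          (fun h => absurd h (by decide)) (fun h => absurd h (by decide)) (fun _ => by have := v5 hk; omega)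
        refine ⟨s, Or.inr ⟨h0', s3, s1, s2, Or.inr (Or.inl ⟨hk, s4, s5⟩)⟩, ?_⟩
        rintro s' (⟨a1, -⟩ | ⟨-, a2, a3, a4, a5⟩)
        · exact absurd (h0'.symm.trans a1) (by decide)
        · rcases a5 with a5 | a5 | a5
          · exact absurd (hk.symm.trans a5.1) (by decide)
          · exact El.ext' (by omega) (by omega) (by rw [a2, s3]) (by rw [s4, a5.2.1]) (by omega)
          · exact absurd (hk.symm.trans a5.1) (by decide)
  · -- G2
    intro t ho hk0
    have hk0' : t.kd ≠ 0 := hk0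
    obtain ⟨v1, v2, v3, v4, v5⟩ := t.val
    rcases ho with ⟨h0, h1⟩ | ⟨h0, h1⟩
    · have h0' : t.ro = 1 := h0
      have h1' : t.X ≠ 0 := of_decide_eq_false h1
      rcases kd_cases t with hk | hk | hk
      · exact absurd hk hk0'
      · have v4' := v4 hk
        by_cases hi : t.ix = 0
        · obtain ⟨s, s1, s2, s3, s4, s5⟩ := El.mk (N := N) (t.X - 1) t.Y 0 0 0 (by omega) v2 (by omega)
            (fun h => absurd h (by decide)) (fun h => absurd h (by decide))
          refine ⟨s, Or.inl ⟨s3, h0', by omega, by omega, Or.inl ⟨s4, hk, hi⟩⟩, ?_⟩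
          rintro s' (⟨a1, a2, a3, a4, a5⟩ | ⟨-, a1, -⟩)
          · rcases a5 with a5 | a5 | a5
            · exact El.ext' (by omega) (by omega) (by rw [a1, s3]) (by rw [s4, a5.1]) (by rw [s5, s'.val.2.2.1 a5.1])
            · omega
            · exact absurd (hk.symm.trans a5.2.1) (by decide)
          · exact absurd (h0'.symm.trans a1) (by decide)
        · obtain ⟨s, s1, s2, s3, s4, s5⟩ := El.mk (N := N) (t.X - 1) t.Y 0 1 (t.ix - 1) (by omega) v2
            (fun h => absurd h (by decide)) (fun _ => by omega) (fun h => absurd h (by decide))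
          refine ⟨s, Or.inl ⟨s3, h0', by omega, by omega, Or.inr (Or.inl ⟨s4, hk, by omega⟩)⟩, ?_⟩
          rintro s' (⟨a1, a2, a3, a4, a5⟩ | ⟨-, a1, -⟩)
          · rcases a5 with a5 | a5 | a5
            · omega
            · exact El.ext' (by omega) (by omega) (by rw [a1, s3]) (by rw [s4, a5.1]) (by omega)
            · exact absurd (hk.symm.trans a5.2.1) (by decide)
          · exact absurd (h0'.symm.trans a1) (by decide)
      · obtain ⟨s, s1, s2, s3, s4, s5⟩ := El.mk (N := N) (t.X - 1) t.Y 0 2 t.ix (by omega) v2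
          (fun h => absurd h (by decide)) (fun h => absurd h (by decide)) (fun _ => v5 hk)
        refine ⟨s, Or.inl ⟨s3, h0', by omega, by omega, Or.inr (Or.inr ⟨s4, hk, s5.symm⟩)⟩, ?_⟩
        rintro s' (⟨a1, a2, a3, a4, a5⟩ | ⟨-, a1, -⟩)
        · rcases a5 with a5 | a5 | a5
          · exact absurd (hk.symm.trans a5.2.1) (by decide)
          · exact absurd (hk.symm.trans a5.2.1) (by decide)
          · exact El.ext' (by omega) (by omega) (by rw [a1, s3]) (by rw [s4, a5.1]) (by omega)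
        · exact absurd (h0'.symm.trans a1) (by decide)
    · have h0' : t.ro = 3 := h0
      have h1' : t.Y ≠ 0 := of_decide_eq_false h1
      rcases kd_cases t with hk | hk | hk
      · exact absurd hk hk0'
      · obtain ⟨s, s1, s2, s3, s4, s5⟩ := El.mk (N := N) t.X (t.Y - 1) 2 1 t.ix v1 (by omega)
          (fun h => absurd h (by decide)) (fun _ => v4 hk) (fun h => absurd h (by decide))
        refine ⟨s, Or.inr ⟨s3, h0', by omega, by omega, Or.inr (Or.inr ⟨s4, hk, s5.symm⟩)⟩, ?_⟩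
        rintro s' (⟨-, a1, -⟩ | ⟨a1, a2, a3, a4, a5⟩)
        · exact absurd (h0'.symm.trans a1) (by decide)
        · rcases a5 with a5 | a5 | a5
          · exact absurd (hk.symm.trans a5.2.1) (by decide)
          · exact absurd (hk.symm.trans a5.2.1) (by decide)
          · exact El.ext' (by omega) (by omega) (by rw [a1, s3]) (by rw [s4, a5.1]) (by omega)
      · have v5' := v5 hk
        by_cases hi : t.ix = 0
        · obtain ⟨s, s1, s2, s3, s4, s5⟩ := El.mk (N := N) t.X (t.Y - 1) 2 0 0 v1 (by omega) (by omega)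
            (fun h => absurd h (by decide)) (fun h => absurd h (by decide))
          refine ⟨s, Or.inr ⟨s3, h0', by omega, by omega, Or.inl ⟨s4, hk, hi⟩⟩, ?_⟩
          rintro s' (⟨-, a1, -⟩ | ⟨a1, a2, a3, a4, a5⟩)
          · exact absurd (h0'.symm.trans a1) (by decide)
          · rcases a5 with a5 | a5 | a5
            · exact El.ext' (by omega) (by omega) (by rw [a1, s3]) (by rw [s4, a5.1]) (by rw [s5, s'.val.2.2.1 a5.1])
            · omega
            · exact absurd (hk.symm.trans a5.2.1) (by decide)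
        · obtain ⟨s, s1, s2, s3, s4, s5⟩ := El.mk (N := N) t.X (t.Y - 1) 2 2 (t.ix - 1) v1 (by omega)
            (fun h => absurd h (by decide)) (fun h => absurd h (by decide)) (fun _ => by omega)
          refine ⟨s, Or.inr ⟨s3, h0', by omega, by omega, Or.inr (Or.inl ⟨s4, hk, by omega⟩)⟩, ?_⟩
          rintro s' (⟨-, a1, -⟩ | ⟨a1, a2, a3, a4, a5⟩)
          · exact absurd (h0'.symm.trans a1) (by decide)
          · rcases a5 with a5 | a5 | a5
            · omega
            · exact El.ext' (by omega) (by omega) (by rw [a1, s3]) (by rw [s4, a5.1]) (by omega)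
            · exact absurd (hk.symm.trans a5.2.1) (by decide)
  · -- H2
    intro t ho hk0
    have hk0' : t.kd = 0 := hk0
    obtain ⟨v1, v2, v3, v4, v5⟩ := t.val
    rcases ho with ⟨h0, h1⟩ | ⟨h0, h1⟩
    · have h0' : t.ro = 1 := h0
      have h1' : t.X ≠ 0 := of_decide_eq_false h1
      obtain ⟨s, s1, s2, s3, s4, s5⟩ := El.mk (N := N) (t.X - 1) t.Y 0 0 0 (by omega) v2 (by omega)
        (fun h => absurd h (by decide)) (fun h => absurd h (by decide))
      refine ⟨s, ⟨?_, s4, Or.inl ⟨s3, h0'⟩⟩, ?_⟩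
      · unfold mE2
        rw [key0 s3, key1 h0', s1, s2, Nat.sub_add_cancel (by omega)]
      · rintro s' ⟨a1, a2, a3⟩
        rcases a3 with ⟨a3, -⟩ | ⟨-, a3⟩
        · unfold mE2 at a1
          rw [key0 a3, key1 h0', Prod.mk.injEq, Prod.mk.injEq] at a1
          have a2' : s'.kd = 0 := a2
          exact El.ext' (by omega) (by omega) (by rw [s3]; exact a3) (by rw [s4]; exact a2') (by rw [s5, s'.val.2.2.1 a2'])
        · exact absurd (h0'.symm.trans a3) (by decide)
    · have h0' : t.ro = 3 := h0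
      have h1' : t.Y ≠ 0 := of_decide_eq_false h1
      obtain ⟨s, s1, s2, s3, s4, s5⟩ := El.mk (N := N) t.X (t.Y - 1) 2 0 0 v1 (by omega) (by omega)
        (fun h => absurd h (by decide)) (fun h => absurd h (by decide))
      refine ⟨s, ⟨?_, s4, Or.inr ⟨s3, h0'⟩⟩, ?_⟩
      · unfold mE2
        rw [key2 s3, key3 h0', s1, s2, Nat.sub_add_cancel (by omega)]
      · rintro s' ⟨a1, a2, a3⟩
        rcases a3 with ⟨-, a3⟩ | ⟨a3, -⟩
        · exact absurd (h0'.symm.trans a3) (by decide)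
        · unfold mE2 at a1
          rw [key2 a3, key3 h0', Prod.mk.injEq, Prod.mk.injEq] at a1
          have a2' : s'.kd = 0 := a2
          exact El.ext' (by omega) (by omega) (by rw [s3]; exact a3) (by rw [s4]; exact a2') (by rw [s5, s'.val.2.2.1 a2'])
  · -- org
    obtain ⟨s, s1, s2, s3, s4, s5⟩ := El.mk (N := N) 0 0 0 0 0 (by omega) (by omega) (by omega)
        (fun h => absurd h (by decide)) (fun h => absurd h (by decide))
    refine ⟨s, ⟨s3, s4, decide_eq_true s1, decide_eq_true s2⟩, ?_⟩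
    rintro s' ⟨a1, a2, a3, a4⟩
    have a2' : s'.kd = 0 := a2
    have a3' : s'.X = 0 := of_decide_eq_true a3
    have a4' : s'.Y = 0 := of_decide_eq_true a4
    exact El.ext' (by omega) (by omega) (by rw [s3]; exact a1) (by rw [s4]; exact a2') (by rw [s5, s'.val.2.2.1 a2'])
  · -- qQ
    rintro t t' ⟨h1, h2, h3, h4, h5, h6, h7, h8, h9⟩
    exact ⟨⟨by omega, by omega⟩, ⟨h5, h7, decide_eq_true h1, decide_eq_true h2⟩,
      ⟨h6, h8, decide_eq_true h3, decide_eq_true h4⟩⟩
  · -- Q1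
    rintro t ⟨h1, h2, h3, h4⟩
    have h1' : t.ro = 0 := h1
    have h2' : t.kd = 1 := h2
    have h3' : t.X = N - 1 := of_decide_eq_true h3
    have h4' : t.Y = N - 1 := of_decide_eq_true h4
    have v4 := t.val.2.2.2.1 h2'
    obtain ⟨s, s1, s2, s3, s4, s5⟩ := El.mk (N := N) (N - 1) (N - 1) 0 2 t.ix (by omega) (by omega)
        (fun h => absurd h (by decide)) (fun h => absurd h (by decide)) (fun _ => by omega)
    refine ⟨s, ⟨h3', h4', s1, s2, h1', s3, h2', s4, s5.symm⟩, ?_⟩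
    rintro s' ⟨-, -, a1, a2, -, a3, -, a4, a5⟩
    exact El.ext' (by omega) (by omega) (by rw [a3, s3]) (by rw [a4, s4]) (by omega)
  · -- Q2
    rintro t ⟨h1, h2, h3, h4⟩
    have h1' : t.ro = 0 := h1
    have h2' : t.kd = 2 := h2
    have h3' : t.X = N - 1 := of_decide_eq_true h3
    have h4' : t.Y = N - 1 := of_decide_eq_true h4
    have v5 := t.val.2.2.2.2 h2'
    obtain ⟨s, s1, s2, s3, s4, s5⟩ := El.mk (N := N) (N - 1) (N - 1) 0 1 t.ix (by omega) (by omega)
        (fun h => absurd h (by decide)) (fun _ => by omega) (fun h => absurd h (by decide))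
    refine ⟨s, ⟨s1, s2, h3', h4', s3, h1', s4, h2', s5⟩, ?_⟩
    rintro s' ⟨a1, a2, -, -, a3, -, a4, -, a5⟩
    exact El.ext' (by omega) (by omega) (by rw [a3, s3]) (by rw [a4, s4]) (by omega)

theorem te_complete {q : ℕ} {W : Wang (Fin q)} {N : ℕ} (hN : 1 ≤ N) (h : Tiles W N) : 4 * N ^ 3 ∈ szTE W := by
  obtain ⟨f, hR, hU, hl, hr, hb, ht, hc⟩ := h
  refine ⟨Nat.succ_le_of_lt (by positivity), El N, inferInstance, mE1 N, mE2 N, mF N, mG N, mQ N, mc N f, ?_,
    te_model hN f hR hU hl hr hb ht hc⟩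
  rw [El.card_El, ← h80_sum_grid N hN, Finset.mul_sum]

/-- The sizes of the models are the numbers `4 N ^ 3` where the square of side `N` can be tiled. -/
theorem te_sizes {q : ℕ} (W : Wang (Fin q)) {N : ℕ} (hN : 1 ≤ N) : Tiles W N ↔ 4 * N ^ 3 ∈ szTE W := by
  refine ⟨te_complete hN, ?_⟩
  rintro ⟨-, M, _, E1, E2, F, G, Q, c, hcard, H⟩
  obtain ⟨N', hN', hcard', ht⟩ := te_sound H
  have : N ^ 3 = N' ^ 3 := by omega
  rw [Nat.pow_left_injective (n := 3) (by norm_num) this]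
  exact ht

end Pool.Agent.Helper80.TE
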