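import Pool.Agent.Helper80.TE.Sound

/-!
# Two equivalence relations: the size of a model
-/

set_option autoImplicit false

namespace Pool.Agent.Helper80.TE

open Pool.Agent.Helper29.Prefix

variable {q : ℕ} {W : Wang (Fin q)} {M : Type} {E1 E2 F G Q : M → M → Prop} {c : M → Col q}

lemma h80_sum_grid (N : ℕ) (hN : 1 ≤ N) : ∑ p : Fin N × Fin N, (1 + p.1.1 + p.2.1) = N ^ 3 := by
  have h1 : ∑ p : Fin N × Fin N, (1 + p.1.1 + p.2.1) = ∑ x : Fin N, ∑ y : Fin N, (1 + x.1 + y.1) :=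
    Fintype.sum_prod_type _
  have h2 : ∑ x : Fin N, x.1 = N * (N - 1) / 2 := by
    rw [Fin.sum_univ_eq_sum_range (fun i => i) N, Finset.sum_range_id]
  have h3 : 2 * ∑ x : Fin N, x.1 = N * (N - 1) := by
    rw [Fin.sum_univ_eq_sum_range (fun i => i) N, mul_comm, Finset.sum_range_id_mul_two]
  rw [h1]
  simp only [Finset.sum_add_distrib, Finset.sum_const, Finset.card_univ, Fintype.card_fin, smul_eq_mul, mul_one]
  rw [← Finset.mul_sum]
  obtain ⟨m, rfl⟩ : ∃ m, N = m + 1 := ⟨N - 1, by omega⟩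
  simp only [Nat.add_sub_cancel] at h3
  generalize ∑ x : Fin (m + 1), x.1 = s at h3 ⊢
  nlinarith [h3]

theorem card_model [Fintype M] (H : TEAx W E1 E2 F G Q c) :
    Fintype.card M = ∑ᶠ h : Pt c, 4 * (1 + nrk E1 c h.1 0 1 + nrk E1 c h.1 0 2) := by
  classical
  rw [finsum_eq_sum_of_fintype]
  have hrep : ∀ x : M, ∃ h : Pt c, E1 h.1 x := by
    intro x
    obtain ⟨h, ⟨h1, h2, h3⟩, -⟩ := H.head x 0
    exact ⟨⟨h, h2, h3⟩, H.e1.symm h1⟩
  choose rep hr using hrep
  have hrep' : ∀ (x : M) (h : Pt c), rep x = h ↔ E1 h.1 x := by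
    intro x h
    constructor
    · rintro rfl
      exact hr x
    · intro hx
      exact Subtype.ext (head_uniq H (H.e1.trans (hr x) (H.e1.symm hx))
        (by rw [(rep x).2.1, h.2.1]) (rep x).2.2 h.2.2)
  have h1 : Fintype.card M = ∑ p : Pt c × Fin 4 × Fin 3,
      Fintype.card {x : M // (rep x, (c x).role, (c x).kind) = p} := by
    rw [← Fintype.card_sigma]
    exact Fintype.card_congr (Equiv.sigmaFiberEquiv _).symm
  rw [h1, Fintype.sum_prod_type]
  refine Finset.sum_congr rfl fun h _ => ?_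
  rw [Fintype.sum_prod_type]
  have h2 : ∀ (r : Fin 4) (k : Fin 3), Fintype.card {x : M // (rep x, (c x).role, (c x).kind) = (h, r, k)} =
      nrk E1 c h.1 r k := by
    intro r k
    unfold nrk
    rw [Nat.card_eq_fintype_card]
    refine Fintype.card_congr (Equiv.subtypeEquivRight fun x => ?_)
    rw [Prod.mk.injEq, Prod.mk.injEq, hrep']
  simp only [h2]
  have h3 : ∀ r : Fin 4, ∑ k : Fin 3, nrk E1 c h.1 r k = 1 + nrk E1 c h.1 0 1 + nrk E1 c h.1 0 2 := by
    intro r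
    rw [Fin.sum_univ_three, nrk_zero H, nrk_role H h.1 r 0 1 (by decide), nrk_role H h.1 r 0 2 (by decide)]
  simp only [h3]
  rw [Finset.sum_const, Finset.card_univ, Fintype.card_fin, smul_eq_mul]

theorem te_sound [Fintype M] (H : TEAx W E1 E2 F G Q c) :
    ∃ N, 1 ≤ N ∧ Fintype.card M = 4 * N ^ 3 ∧ Tiles W N := by
  classical
  have g := grd H
  obtain ⟨N, hN, hlt, hex, hfr, hfu⟩ := g.core
  refine ⟨N, hN, ?_, ?_⟩
  · rw [card_model H, finsum_eq_sum_of_fintype, ← h80_sum_grid N hN, Finset.mul_sum]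
    refine Fintype.sum_bijective
      (fun h : Pt c => ((⟨nrk E1 c h.1 0 1, (hlt h).1⟩, ⟨nrk E1 c h.1 0 2, (hlt h).2⟩) : Fin N × Fin N)) ?_ _ _ ?_
    · constructor
      · intro h h' e
        simp only [Prod.mk.injEq, Fin.mk.injEq] at e
        exact g.ext e.1 e.2
      · rintro ⟨⟨x, hx⟩, ⟨y, hy⟩⟩
        obtain ⟨h, h1, h2⟩ := hex x y hx hy
        refine ⟨h, ?_⟩
        simp only [Prod.mk.injEq, Fin.mk.injEq]
        exact ⟨h1, h2⟩
    · intro h
      rfl
  · obtain ⟨o, ho, -⟩ := g.o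
    haveI : Nonempty (Pt c) := ⟨o⟩
    choose! f hf1 hf2 using hex
    have hf : ∀ h : Pt c, f (nrk E1 c h.1 0 1) (nrk E1 c h.1 0 2) = h := fun h =>
      g.ext (hf1 _ _ (hlt h).1 (hlt h).2) (hf2 _ _ (hlt h).1 (hlt h).2)
    refine ⟨fun x y => (c (f x y).1).tile, ?_, ?_, ?_, ?_, ?_, ?_, ?_⟩
    · intro x y hx hy
      have a1 := hf1 x y (by omega) hy
      have a2 := hf2 x y (by omega) hy
      have b1 := hf1 (x + 1) y hx hy
      have b2 := hf2 (x + 1) y hx hy
      obtain ⟨-, -, z, hz1, hz2, hz3, hz4⟩ := g.right_of (h := f x y) (h' := f (x + 1) y) (by rw [b1, a1]) (by rw [b2, a2])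
      have nb := (H.nb _ _ hz4).1 (f x y).2.1 hz2
      have s1 := H.same _ _ hz1
      show W.R (c (f x y).1).tile (c (f (x + 1) y).1).tile
      rw [← s1.1]
      exact nb.2.2.2.2
    · intro x y hx hy
      have a1 := hf1 x y hx (by omega)
      have a2 := hf2 x y hx (by omega)
      have b1 := hf1 x (y + 1) hx hy
      have b2 := hf2 x (y + 1) hx hy
      obtain ⟨-, -, z', z, hz1', hz2', hz3', hz1, hz2, hz3, hz4⟩ :=
        g.up_of (h := f x y) (h' := f x (y + 1)) (by rw [b1, a1]) (by rw [b2, a2])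
      have nb := (H.nb _ _ hz4).2 hz2' hz2
      have s1 := H.same _ _ hz1
      have s2 := H.same _ _ hz1'
      show W.U (c (f x y).1).tile (c (f x (y + 1)).1).tile
      rw [← s1.1, s2.1]
      exact nb.2.2.2.2
    · intro y hy
      exact ((H.one _).1 (g.zero_fl (hf1 0 y (by omega) hy))).1
    · intro y hy
      exact (H.one _).2.1 (hfr _ (hf1 (N - 1) y (by omega) hy))
    · intro x hx
      exact ((H.one _).2.2.1 (g.zero_fd (hf2 x 0 hx (by omega)))).1
    · intro x hx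
      exact (H.one _).2.2.2.1 (hfu _ (hf2 x (N - 1) hx (by omega)))
    · exact (H.one _).2.2.2.2 (g.zero_fl (hf1 0 0 (by omega) (by omega))) (g.zero_fd (hf2 0 0 (by omega) (by omega)))

end Pool.Agent.Helper80.TE
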