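import Mathlib

/-!
# A grid from counted coordinates
-/

set_option autoImplicit false

namespace Pool.Agent.Helper80.TE

/-- points with coordinates `X`, `Y` and flags; `Rr`, `Uu` link a point to its right and upper neighbour -/
structure Grd {P : Type} (X Y : P → ℕ) (fl fr fd fu : P → Bool) (Rr Uu : P → P → Prop) : Prop where
  hR : ∀ h h', Rr h h' → X h' = X h + 1 ∧ Y h' = Y h ∧ fr h = false ∧ fl h' = false ∧ fd h = fd h' ∧ fu h = fu h'
  hU : ∀ h h', Uu h h' → X h' = X h ∧ Y h' = Y h + 1 ∧ fu h = false ∧ fd h' = false ∧ fl h = fl h' ∧ fr h = fr h'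
  R1 : ∀ h, fr h = false → ∃ h', Rr h h'
  R2 : ∀ h', fl h' = false → ∃ h, Rr h h'
  R3 : ∀ h h' h'', Rr h h' → Rr h h'' → h' = h''
  U1 : ∀ h, fu h = false → ∃ h', Uu h h'
  U2 : ∀ h', fd h' = false → ∃ h, Uu h h'
  U3 : ∀ h h' h'', Uu h h' → Uu h h'' → h' = h''
  hl : ∀ h, fl h = true → X h = 0
  hd : ∀ h, fd h = true → Y h = 0
  o : ∃! h, fl h = true ∧ fd h = true
  hc : ∀ h, fr h = true → fu h = true → X h = Y h

variable {P : Type} {X Y : P → ℕ} {fl fr fd fu : P → Bool} {Rr Uu : P → P → Prop}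

namespace Grd

lemma pos_fl (H : Grd X Y fl fr fd fu Rr Uu) {h : P} (h0 : X h ≠ 0) : fl h = false := by
  by_contra h1
  exact h0 (H.hl h (by simpa using h1))

lemma pos_fd (H : Grd X Y fl fr fd fu Rr Uu) {h : P} (h0 : Y h ≠ 0) : fd h = false := by
  by_contra h1
  exact h0 (H.hd h (by simpa using h1))

lemma zero_fl (H : Grd X Y fl fr fd fu Rr Uu) {h : P} (h0 : X h = 0) : fl h = true := by
  by_contra h1
  obtain ⟨k, hk⟩ := H.R2 h (by simpa using h1)
  have := (H.hR _ _ hk).1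
  omega

lemma zero_fd (H : Grd X Y fl fr fd fu Rr Uu) {h : P} (h0 : Y h = 0) : fd h = true := by
  by_contra h1
  obtain ⟨k, hk⟩ := H.U2 h (by simpa using h1)
  have := (H.hU _ _ hk).2.1
  omega

lemma uniq (H : Grd X Y fl fr fd fu Rr Uu) : ∀ (n : ℕ) (h h' : P), X h + Y h = n → X h = X h' → Y h = Y h' →
    h = h' := by
  intro n
  induction n with
  | zero =>
    intro h h' h1 h2 h3
    obtain ⟨o, -, ho⟩ := H.o
    rw [ho h ⟨H.zero_fl (by omega), H.zero_fd (by omega)⟩, ho h' ⟨H.zero_fl (by omega), H.zero_fd (by omega)⟩]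
  | succ n ih =>
    intro h h' h1 h2 h3
    by_cases h0 : X h = 0
    · obtain ⟨k, hk⟩ := H.U2 h (H.pos_fd (by omega))
      obtain ⟨k', hk'⟩ := H.U2 h' (H.pos_fd (by omega))
      have e1 := H.hU _ _ hk
      have e2 := H.hU _ _ hk'
      have : k = k' := ih k k' (by omega) (by omega) (by omega)
      subst this
      exact H.U3 _ _ _ hk hk'
    · obtain ⟨k, hk⟩ := H.R2 h (H.pos_fl (by omega))
      obtain ⟨k', hk'⟩ := H.R2 h' (H.pos_fl (by omega))
      have e1 := H.hR _ _ hk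
      have e2 := H.hR _ _ hk'
      have : k = k' := ih k k' (by omega) (by omega) (by omega)
      subst this
      exact H.R3 _ _ _ hk hk'

lemma ext (H : Grd X Y fl fr fd fu Rr Uu) {h h' : P} (h2 : X h = X h') (h3 : Y h = Y h') : h = h' :=
  H.uniq _ h h' rfl h2 h3

/-- go left -/
lemma left (H : Grd X Y fl fr fd fu Rr Uu) (d : ℕ) : ∀ h : P, ∀ x, x + d = X h →
    ∃ h', X h' = x ∧ Y h' = Y h ∧ fu h' = fu h := by
  induction d with
  | zero => exact fun h x hx => ⟨h, by omega, rfl, rfl⟩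
  | succ d ih =>
    intro h x hx
    obtain ⟨k, hk⟩ := H.R2 h (H.pos_fl (by omega))
    have e1 := H.hR _ _ hk
    obtain ⟨h', e2, e3, e4⟩ := ih k x (by omega)
    exact ⟨h', e2, by omega, e4.trans e1.2.2.2.2.2⟩

/-- go down -/
lemma down (H : Grd X Y fl fr fd fu Rr Uu) (d : ℕ) : ∀ h : P, ∀ y, y + d = Y h →
    ∃ h', X h' = X h ∧ Y h' = y ∧ fr h' = fr h := by
  induction d with
  | zero => exact fun h x hx => ⟨h, rfl, by omega, rfl⟩
  | succ d ih =>
    intro h x hx
    obtain ⟨k, hk⟩ := H.U2 h (H.pos_fd (by omega))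
    have e1 := H.hU _ _ hk
    obtain ⟨h', e2, e3, e4⟩ := ih k x (by omega)
    exact ⟨h', by omega, e3, e4.trans e1.2.2.2.2.2⟩

/-- `fr` depends only on `X` -/
lemma fr_eq (H : Grd X Y fl fr fd fu Rr Uu) {h h' : P} (h2 : X h = X h') : fr h = fr h' := by
  obtain ⟨k, a1, a2, a3⟩ := H.down (Y h) h 0 (by omega)
  obtain ⟨k', b1, b2, b3⟩ := H.down (Y h') h' 0 (by omega)
  have : k = k' := H.ext (by omega) (by omega)
  rw [← a3, ← b3, this]

lemma fu_eq (H : Grd X Y fl fr fd fu Rr Uu) {h h' : P} (h2 : Y h = Y h') : fu h = fu h' := by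
  obtain ⟨k, a1, a2, a3⟩ := H.left (X h) h 0 (by omega)
  obtain ⟨k', b1, b2, b3⟩ := H.left (X h') h' 0 (by omega)
  have : k = k' := H.ext (by omega) (by omega)
  rw [← a3, ← b3, this]

theorem core [Finite P] (H : Grd X Y fl fr fd fu Rr Uu) :
    ∃ N, 1 ≤ N ∧ (∀ h, X h < N ∧ Y h < N) ∧ (∀ x y, x < N → y < N → ∃ h, X h = x ∧ Y h = y) ∧
      (∀ h, X h = N - 1 → fr h = true) ∧ (∀ h, Y h = N - 1 → fu h = true) := by
  obtain ⟨o, ho, -⟩ := H.o
  haveI : Nonempty P := ⟨o⟩
  obtain ⟨a, ha⟩ := Finite.exists_max X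
  obtain ⟨b, hb⟩ := Finite.exists_max Y
  have hfa : fr a = true := by
    by_contra h1
    obtain ⟨k, hk⟩ := H.R1 a (by simpa using h1)
    have := (H.hR _ _ hk).1
    have := ha k
    omega
  have hfb : fu b = true := by
    by_contra h1
    obtain ⟨k, hk⟩ := H.U1 b (by simpa using h1)
    have := (H.hU _ _ hk).2.1
    have := hb k
    omega
  -- from `a` go up until `fu`
  have hup : ∀ d : ℕ, ∀ h, X h = X a → Y h + d = Y b → ∃ h', X h' = X a ∧ Y h' = Y b := by
    intro d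
    induction d with
    | zero => exact fun h h1 h2 => ⟨h, h1, by omega⟩
    | succ d ih =>
      intro h h1 h2
      have hfu : fu h = false := by
        obtain ⟨k, k1, k2, k3⟩ := H.left (X b) b 0 (by omega)
        obtain ⟨k', b1, b2, b3⟩ := H.down (d + 1) k (Y h) (by omega)
        -- `k'` has an upper neighbour
        obtain ⟨k2', c1, c2, c3⟩ := H.down d k (Y h + 1) (by omega)
        obtain ⟨k3', hk3⟩ := H.U2 k2' (H.pos_fd (by omega))
        have e1 := H.hU _ _ hk3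
        rw [H.fu_eq (h := h) (h' := k3') (by omega)]
        exact e1.2.2.1
      obtain ⟨k, hk⟩ := H.U1 h hfu
      have e1 := H.hU _ _ hk
      exact ih k (by omega) (by omega)
  obtain ⟨m, m1, m2⟩ := hup (Y b - Y a) a rfl (by have := hb a; omega)
  have hm : X m = Y m := H.hc m (by rw [H.fr_eq m1]; exact hfa) (by rw [H.fu_eq m2]; exact hfb)
  refine ⟨X a + 1, by omega, fun h => ⟨by have := ha h; omega, by have := hb h; omega⟩, ?_, ?_, ?_⟩
  · intro x y hx hy
    obtain ⟨k, k1, k2, -⟩ := H.left (X m - x) m x (by omega)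
    obtain ⟨k', l1, l2, -⟩ := H.down (Y k - y) k y (by omega)
    exact ⟨k', by omega, l2⟩
  · intro h hh
    rw [H.fr_eq (h := h) (h' := a) (by omega)]
    exact hfa
  · intro h hh
    rw [H.fu_eq (h := h) (h' := b) (by omega)]
    exact hfb

/-- the right neighbour -/
lemma right_of (H : Grd X Y fl fr fd fu Rr Uu) {h h' : P} (h1 : X h' = X h + 1) (h2 : Y h' = Y h) : Rr h h' := by
  obtain ⟨k, hk⟩ := H.R2 h' (H.pos_fl (by omega))
  have e1 := H.hR _ _ hk
  have : k = h := H.ext (by omega) (by omega)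
  rw [← this]
  exact hk

lemma up_of (H : Grd X Y fl fr fd fu Rr Uu) {h h' : P} (h1 : X h' = X h) (h2 : Y h' = Y h + 1) : Uu h h' := by
  obtain ⟨k, hk⟩ := H.U2 h' (H.pos_fd (by omega))
  have e1 := H.hU _ _ hk
  have : k = h := H.ext (by omega) (by omega)
  rw [← this]
  exact hk

end Grd

end Pool.Agent.Helper80.TE
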