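import Pool.Agent.Helper29.Prefix.Wang

/-!
# Two equivalence relations: the axioms of the board (wild half of C2)

A class of `E1` is a point `(x, y)` of the board. It consists of four cells, one for each role: `0` right, `1` left,
`2` upper, `3` lower. A cell has one element of kind `0` (the head), `x` elements of kind `1` and `y` elements of
kind `2`. A class of `E2` consists of a right cell and the left cell of the right neighbour, or of an upper cell
and the lower cell of the upper neighbour.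
-/

set_option autoImplicit false

namespace Pool.Agent.Helper80.TE

open Pool.Agent.Helper29.Prefix

/-- the colours -/
structure Col (q : ℕ) where
  /-- the role -/
  role : Fin 4
  /-- the kind -/
  kind : Fin 3
  /-- the tile -/
  tile : Fin q
  /-- the point is in the first column -/
  fl : Bool
  /-- the point is in the last column -/
  fr : Bool
  /-- the point is in the first row -/
  fd : Bool
  /-- the point is in the last row -/
  fu : Bool
deriving DecidableEq

/-- the conditions on one colour -/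
def One {q : ℕ} (W : Wang (Fin q)) (c : Col q) : Prop :=
  (c.fl = true → W.l c.tile ∧ c.kind ≠ 1) ∧ (c.fr = true → W.r c.tile) ∧
  (c.fd = true → W.b c.tile ∧ c.kind ≠ 2) ∧ (c.fu = true → W.t c.tile) ∧
  (c.fl = true → c.fd = true → W.c c.tile)

/-- the same tile and the same flags -/
def Same {q : ℕ} (c c' : Col q) : Prop :=
  c.tile = c'.tile ∧ c.fl = c'.fl ∧ c.fr = c'.fr ∧ c.fd = c'.fd ∧ c.fu = c'.fu

/-- right and left, or upper and lower -/
def Opp {q : ℕ} (c c' : Col q) : Prop := (c.role = 0 ∧ c'.role = 1) ∨ (c.role = 2 ∧ c'.role = 3)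

/-- the colours of two elements in the same class of `E2` -/
def Nb {q : ℕ} (W : Wang (Fin q)) (c c' : Col q) : Prop :=
  (c.role = 0 → c'.role = 1 →
    c.fr = false ∧ c'.fl = false ∧ c.fd = c'.fd ∧ c.fu = c'.fu ∧ W.R c.tile c'.tile) ∧
  (c.role = 2 → c'.role = 3 →
    c.fu = false ∧ c'.fd = false ∧ c.fl = c'.fl ∧ c.fr = c'.fr ∧ W.U c.tile c'.tile)

/-- the colours of two elements linked by `G` -/
def Lk {q : ℕ} (c c' : Col q) : Prop :=
  (c.role = 0 ∧ c'.role = 1 ∧ c'.kind ≠ 0 ∧ (c.kind = 2 ↔ c'.kind = 2)) ∨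
  (c.role = 2 ∧ c'.role = 3 ∧ c'.kind ≠ 0 ∧ (c.kind = 1 ↔ c'.kind = 1))

/-- there is a right, or an upper neighbour -/
def Ou {q : ℕ} (c : Col q) : Prop := (c.role = 0 ∧ c.fr = false) ∨ (c.role = 2 ∧ c.fu = false)

/-- there is a left, or a lower neighbour -/
def In {q : ℕ} (c : Col q) : Prop := (c.role = 1 ∧ c.fl = false) ∨ (c.role = 3 ∧ c.fd = false)

/-- the corner -/
def Cn {q : ℕ} (c : Col q) (k : Fin 3) : Prop := c.role = 0 ∧ c.kind = k ∧ c.fr = true ∧ c.fu = true

/-- the axioms -/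
structure TEAx {q : ℕ} (W : Wang (Fin q)) {M : Type} (E1 E2 F G Q : M → M → Prop) (c : M → Col q) : Prop where
  e1 : Equivalence E1
  e2 : Equivalence E2
  one : ∀ x, One W (c x)
  same : ∀ x y, E1 x y → Same (c x) (c y)
  cell : ∀ x y, (c x).role = (c y).role → (E1 x y ↔ E2 x y)
  nb : ∀ x y, E2 x y → Nb W (c x) (c y)
  head : ∀ x, ∀ r : Fin 4, ∃! y, E1 x y ∧ (c y).role = r ∧ (c y).kind = 0
  fF : ∀ x y, F x y → E1 x y ∧ (c x).kind = (c y).kind ∧ F y x
  F1 : ∀ x, (c x).kind ≠ 0 → ∀ r : Fin 4, r ≠ (c x).role → ∃! y, F x y ∧ (c y).role = r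
  gG : ∀ x y, G x y → E2 x y ∧ Lk (c x) (c y)
  G1 : ∀ x, Ou (c x) → ∃! y, G x y
  G2 : ∀ y, In (c y) → (c y).kind ≠ 0 → ∃! x, G x y
  H2 : ∀ y, In (c y) → (c y).kind = 0 → ∃! x, E2 x y ∧ (c x).kind = 0 ∧ Opp (c x) (c y)
  org : ∃! x, (c x).role = 0 ∧ (c x).kind = 0 ∧ (c x).fl = true ∧ (c x).fd = true
  qQ : ∀ x y, Q x y → E1 x y ∧ Cn (c x) 1 ∧ Cn (c y) 2
  Q1 : ∀ x, Cn (c x) 1 → ∃! y, Q x y
  Q2 : ∀ y, Cn (c y) 2 → ∃! x, Q x y

/-- the sizes of the models -/
def szTE {q : ℕ} (W : Wang (Fin q)) : Set ℕ :=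
  {n : ℕ | 1 ≤ n ∧ ∃ (M : Type) (_ : Fintype M) (E1 E2 F G Q : M → M → Prop) (c : M → Col q),
    Fintype.card M = n ∧ TEAx W E1 E2 F G Q c}

end Pool.Agent.Helper80.TE
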