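import Pool.Agent.Helper80.TE.Defs
import Pool.Agent.Helper80.TE.Core

/-!
# Two equivalence relations: from a model to a tiling
-/

set_option autoImplicit false

namespace Pool.Agent.Helper80.TE

open Pool.Agent.Helper29.Prefix

/-- a relation which is a bijection -/
lemma h80_card_eq {α β : Type} (R : α → β → Prop) (h1 : ∀ a, ∃! b, R a b) (h2 : ∀ b, ∃! a, R a b) :
    Nat.card α = Nat.card β := by
  choose f hf hf' using h1
  choose g hg hg' using h2
  exact Nat.card_congr ⟨f, g, fun a => (hg' _ _ (hf a)).symm, fun b => (hf' _ _ (hg b)).symm⟩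

variable {q : ℕ} {W : Wang (Fin q)} {M : Type} {E1 E2 F G Q : M → M → Prop} {c : M → Col q}

/-- the number of elements of role `r` and kind `k` in the class of `h` -/
noncomputable def nrk (E1 : M → M → Prop) (c : M → Col q) (h : M) (r : Fin 4) (k : Fin 3) : ℕ :=
  Nat.card {y : M // E1 h y ∧ (c y).role = r ∧ (c y).kind = k}

/-- the points -/
abbrev Pt (c : M → Col q) : Type := {h : M // (c h).role = 0 ∧ (c h).kind = 0}

section

variable (H : TEAx W E1 E2 F G Q c)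
include H

lemma nrk_zero (h : M) (r : Fin 4) : nrk E1 c h r 0 = 1 := by
  obtain ⟨y, hy, hy'⟩ := H.head h r
  unfold nrk
  haveI : Unique {y : M // E1 h y ∧ (c y).role = r ∧ (c y).kind = 0} :=
    ⟨⟨⟨y, hy⟩⟩, fun z => Subtype.ext (hy' z.1 z.2)⟩
  exact Nat.card_unique

lemma nrk_role (h : M) (r r' : Fin 4) (k : Fin 3) (hk : k ≠ 0) : nrk E1 c h r k = nrk E1 c h r' k := by
  by_cases hr : r = r'
  · rw [hr]
  refine h80_card_eq (fun a b => F a.1 b.1) ?_ ?_
  · rintro ⟨a, ha1, ha2, ha3⟩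
    obtain ⟨b, ⟨hb1, hb2⟩, hb'⟩ := H.F1 a (by rw [ha3]; exact hk) r' (by rw [ha2]; exact fun h => hr h.symm)
    obtain ⟨e1, e2, e3⟩ := H.fF a b hb1
    exact ⟨⟨b, H.e1.trans ha1 e1, hb2, by rw [← e2, ha3]⟩, hb1,
      fun z hz => Subtype.ext (hb' z.1 ⟨hz, z.2.2.1⟩)⟩
  · rintro ⟨a, ha1, ha2, ha3⟩
    obtain ⟨b, ⟨hb1, hb2⟩, hb'⟩ := H.F1 a (by rw [ha3]; exact hk) r (by rw [ha2]; exact hr)
    obtain ⟨e1, e2, e3⟩ := H.fF a b hb1
    exact ⟨⟨b, H.e1.trans ha1 e1, hb2, by rw [← e2, ha3]⟩, e3,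
      fun z hz => Subtype.ext (hb' z.1 ⟨(H.fF _ _ hz).2.2, z.2.2.1⟩)⟩

/-- the links of the right or upper cells -/
lemma link_card [Finite M] {h h' : M} (he : E2 h h') (hop : Opp (c h) (c h')) (ho : Ou (c h)) (hi : In (c h'))
    (s : Finset (Fin 3)) (t : Finset (Fin 3)) (hs : ∀ k ∈ t, k ≠ 0)
    (hst : ∀ x y : M, (c x).role = (c h).role → (c y).role = (c h').role → Lk (c x) (c y) →
      ((c x).kind ∈ s ↔ (c y).kind ∈ t)) :
    Nat.card {x : M // E1 h x ∧ (c x).role = (c h).role ∧ (c x).kind ∈ s} =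
    Nat.card {y : M // E1 h' y ∧ (c y).role = (c h').role ∧ (c y).kind ∈ t} := by
  refine h80_card_eq (fun a b => G a.1 b.1) ?_ ?_
  · rintro ⟨a, ha1, ha2, ha3⟩
    have hs1 := H.same _ _ ha1
    have hoa : Ou (c a) := by
      unfold Ou at ho ⊢
      rw [ha2, ← hs1.2.2.1, ← hs1.2.2.2.2]
      exact ho
    obtain ⟨b, hb1, hb'⟩ := H.G1 a hoa
    obtain ⟨e1, e2⟩ := H.gG a b hb1
    have hrb : (c b).role = (c h').role := by
      rcases hop with hop | hop <;> rcases e2 with e2 | e2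
      · rw [hop.2, e2.2.1]
      · rw [ha2, hop.1] at e2
        exact absurd e2.1 (by decide)
      · rw [ha2, hop.1] at e2
        exact absurd e2.1 (by decide)
      · rw [hop.2, e2.2.1]
    have hE : E2 h' b := H.e2.trans (H.e2.symm he) (H.e2.trans ((H.cell h a ha2.symm).1 ha1) e1)
    have hE1 : E1 h' b := (H.cell h' b hrb.symm).2 hE
    refine ⟨⟨b, hE1, hrb, (hst a b ha2 hrb e2).1 ha3⟩, hb1, fun z hz => Subtype.ext (hb' z.1 hz)⟩
  · rintro ⟨b, hb1, hb2, hb3⟩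
    have hs1 := H.same _ _ hb1
    have hib : In (c b) := by
      unfold In at hi ⊢
      rw [hb2, ← hs1.2.1, ← hs1.2.2.2.1]
      exact hi
    obtain ⟨a, ha1, ha'⟩ := H.G2 b hib (hs _ hb3)
    obtain ⟨e1, e2⟩ := H.gG a b ha1
    have hra : (c a).role = (c h).role := by
      rcases hop with hop | hop <;> rcases e2 with e2 | e2
      · rw [hop.1, e2.1]
      · rw [hb2, hop.2] at e2
        exact absurd e2.2.1 (by decide)
      · rw [hb2, hop.2] at e2
        exact absurd e2.2.1 (by decide)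
      · rw [hop.1, e2.1]
    have hE : E2 h a := H.e2.trans he (H.e2.trans ((H.cell h' b hb2.symm).1 hb1) (H.e2.symm e1))
    have hE1 : E1 h a := (H.cell h a hra.symm).2 hE
    refine ⟨⟨a, hE1, hra, (hst a b hra hb2 e2).2 hb3⟩, ha1, fun z hz => Subtype.ext (ha' z.1 hz)⟩

end

/-- the number of elements of role `r` and kind in `s` -/
lemma card_mem [Finite M] (h : M) (r : Fin 4) (s : Finset (Fin 3)) :
    Nat.card {x : M // E1 h x ∧ (c x).role = r ∧ (c x).kind ∈ s} = ∑ k ∈ s, nrk E1 c h r k := by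
  classical
  haveI := Fintype.ofFinite M
  unfold nrk
  simp only [Nat.card_eq_fintype_card, Fintype.card_subtype]
  rw [← Finset.card_biUnion]
  · congr 1
    ext x
    simp only [Finset.mem_filter, Finset.mem_univ, true_and, Finset.mem_biUnion]
    constructor
    · rintro ⟨h1, h2, h3⟩
      exact ⟨_, h3, h1, h2, rfl⟩
    · rintro ⟨k, h3, h1, h2, h4⟩
      exact ⟨h1, h2, h4 ▸ h3⟩
  · intro k1 _ k2 _ hne
    rw [Function.onFun, Finset.disjoint_left]
    intro x hx hx'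
    simp only [Finset.mem_filter, Finset.mem_univ, true_and] at hx hx'
    exact hne (hx.2.2.symm.trans hx'.2.2)

section

variable (H : TEAx W E1 E2 F G Q c)
include H

/-- horizontal link of the coordinates -/
lemma link_h [Finite M] {h h' : M} (he : E2 h h') (h0 : (c h).role = 0) (h1 : (c h').role = 1)
    (hf : (c h).fr = false) (hf' : (c h').fl = false) :
    nrk E1 c h' 0 1 = nrk E1 c h 0 1 + 1 ∧ nrk E1 c h' 0 2 = nrk E1 c h 0 2 := by
  constructor
  · have := link_card H he (Or.inl ⟨h0, h1⟩) (Or.inl ⟨h0, hf⟩) (Or.inl ⟨h1, hf'⟩) {0, 1} {1}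
      (by decide) (by
        intro x y hx hy hl
        rcases hl with hl | hl
        · simp only [Finset.mem_insert, Finset.mem_singleton]
          obtain ⟨-, -, hl1, hl2⟩ := hl
          generalize (c x).kind = k at hl2 ⊢
          generalize (c y).kind = k' at hl1 hl2 ⊢
          revert hl1 hl2
          revert k k'
          decide
        · rw [hx, h0] at hl
          exact absurd hl.1 (by decide))
    rw [card_mem, card_mem, Finset.sum_pair (by decide), Finset.sum_singleton, h0, h1, nrk_zero H,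
      nrk_role H h' 1 0 1 (by decide)] at this
    omega
  · have := link_card H he (Or.inl ⟨h0, h1⟩) (Or.inl ⟨h0, hf⟩) (Or.inl ⟨h1, hf'⟩) {2} {2}
      (by decide) (by
        intro x y hx hy hl
        rcases hl with hl | hl
        · simp only [Finset.mem_singleton]
          exact hl.2.2.2
        · rw [hx, h0] at hl
          exact absurd hl.1 (by decide))
    rw [card_mem, card_mem, Finset.sum_singleton, Finset.sum_singleton, h0, h1,
      nrk_role H h' 1 0 2 (by decide)] at this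
    omega

/-- vertical link of the coordinates -/
lemma link_v [Finite M] {h h' : M} (he : E2 h h') (h0 : (c h).role = 2) (h1 : (c h').role = 3)
    (hf : (c h).fu = false) (hf' : (c h').fd = false) :
    nrk E1 c h' 0 1 = nrk E1 c h 0 1 ∧ nrk E1 c h' 0 2 = nrk E1 c h 0 2 + 1 := by
  constructor
  · have := link_card H he (Or.inr ⟨h0, h1⟩) (Or.inr ⟨h0, hf⟩) (Or.inr ⟨h1, hf'⟩) {1} {1}
      (by decide) (by
        intro x y hx hy hl
        rcases hl with hl | hl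
        · rw [hx, h0] at hl
          exact absurd hl.1 (by decide)
        · simp only [Finset.mem_singleton]
          exact hl.2.2.2)
    rw [card_mem, card_mem, Finset.sum_singleton, Finset.sum_singleton, h0, h1,
      nrk_role H h' 3 0 1 (by decide), nrk_role H h 2 0 1 (by decide)] at this
    omega
  · have := link_card H he (Or.inr ⟨h0, h1⟩) (Or.inr ⟨h0, hf⟩) (Or.inr ⟨h1, hf'⟩) {0, 2} {2}
      (by decide) (by
        intro x y hx hy hl
        rcases hl with hl | hl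
        · rw [hx, h0] at hl
          exact absurd hl.1 (by decide)
        · simp only [Finset.mem_insert, Finset.mem_singleton]
          obtain ⟨-, -, hl1, hl2⟩ := hl
          generalize (c x).kind = k at hl2 ⊢
          generalize (c y).kind = k' at hl1 hl2 ⊢
          revert hl1 hl2
          revert k k'
          decide)
    rw [card_mem, card_mem, Finset.sum_pair (by decide), Finset.sum_singleton, h0, h1, nrk_zero H,
      nrk_role H h' 3 0 2 (by decide), nrk_role H h 2 0 2 (by decide)] at this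
    omega

/-- two heads of the same role in the same class are equal -/
lemma head_uniq {x y : M} (h : E1 x y) (hr : (c x).role = (c y).role) (hx : (c x).kind = 0)
    (hy : (c y).kind = 0) : x = y := by
  obtain ⟨z, -, hz⟩ := H.head x (c x).role
  rw [hz x ⟨H.e1.refl x, rfl, hx⟩, hz y ⟨h, hr.symm, hy⟩]

lemma nrk_congr {x y : M} (h : E1 x y) (r : Fin 4) (k : Fin 3) : nrk E1 c x r k = nrk E1 c y r k := by
  unfold nrk
  congr 1
  have : ∀ z, (E1 x z ∧ (c z).role = r ∧ (c z).kind = k) ↔ (E1 y z ∧ (c z).role = r ∧ (c z).kind = k) :=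
    fun z => ⟨fun hz => ⟨H.e1.trans (H.e1.symm h) hz.1, hz.2⟩, fun hz => ⟨H.e1.trans h hz.1, hz.2⟩⟩
  simp only [this]

/-- the grid of the points -/
theorem grd [Finite M] : Grd (P := Pt c) (fun h => nrk E1 c h.1 0 1) (fun h => nrk E1 c h.1 0 2)
    (fun h => (c h.1).fl) (fun h => (c h.1).fr) (fun h => (c h.1).fd) (fun h => (c h.1).fu)
    (fun h h' => (c h.1).fr = false ∧ (c h'.1).fl = false ∧ ∃ y, E1 y h'.1 ∧ (c y).role = 1 ∧ (c y).kind = 0 ∧
      E2 h.1 y)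
    (fun h h' => (c h.1).fu = false ∧ (c h'.1).fd = false ∧ ∃ x y, E1 h.1 x ∧ (c x).role = 2 ∧ (c x).kind = 0 ∧
      E1 y h'.1 ∧ (c y).role = 3 ∧ (c y).kind = 0 ∧ E2 x y) where
  hR := by
    rintro ⟨h, h0, hk⟩ ⟨h', h0', hk'⟩ ⟨hf, hf', y, hy1, hy2, hy3, hy4⟩
    have s1 := H.same _ _ hy1
    have := link_h H hy4 h0 hy2 hf (by rw [s1.2.1]; exact hf')
    rw [nrk_congr H hy1, nrk_congr H hy1] at this
    have nb := (H.nb _ _ hy4).1 h0 hy2
    refine ⟨this.1, this.2, hf, hf', ?_, ?_⟩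
    · show (c h).fd = (c h').fd
      rw [nb.2.2.1, s1.2.2.2.1]
    · show (c h).fu = (c h').fu
      rw [nb.2.2.2.1, s1.2.2.2.2]
  hU := by
    rintro ⟨h, h0, hk⟩ ⟨h', h0', hk'⟩ ⟨hf, hf', x, y, hx1, hx2, hx3, hy1, hy2, hy3, hy4⟩
    have s1 := H.same _ _ hy1
    have s2 := H.same _ _ hx1
    have := link_v H hy4 hx2 hy2 (by rw [← s2.2.2.2.2]; exact hf) (by rw [s1.2.2.2.1]; exact hf')
    rw [nrk_congr H hy1, nrk_congr H hy1, ← nrk_congr H hx1, ← nrk_congr H hx1] at this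
    have nb := (H.nb _ _ hy4).2 hx2 hy2
    refine ⟨this.1, this.2, hf, hf', ?_, ?_⟩
    · show (c h).fl = (c h').fl
      rw [s2.2.1, nb.2.2.1, s1.2.1]
    · show (c h).fr = (c h').fr
      rw [s2.2.2.1, nb.2.2.2.1, s1.2.2.1]
  R1 := by
    rintro ⟨h, h0, hk⟩ hf
    obtain ⟨b, hb, -⟩ := H.G1 h (Or.inl ⟨h0, hf⟩)
    obtain ⟨e1, e2⟩ := H.gG _ _ hb
    have hrb : (c b).role = 1 := by
      rcases e2 with e2 | e2
      · exact e2.2.1
      · rw [h0] at e2
        exact absurd e2.1 (by decide)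
    obtain ⟨h', ⟨a1, a2, a3⟩, -⟩ := H.head b 0
    obtain ⟨y, ⟨b1, b2, b3⟩, -⟩ := H.head b 1
    have nb := (H.nb _ _ e1).1 h0 hrb
    have s1 := H.same _ _ a1
    refine ⟨⟨h', a2, a3⟩, hf, ?_, y, H.e1.trans (H.e1.symm b1) a1, b2, b3, ?_⟩
    · show (c h').fl = false
      rw [← s1.2.1]
      exact nb.2.1
    · exact H.e2.trans e1 ((H.cell b y (by rw [hrb, b2])).1 b1)
  R2 := by
    rintro ⟨h', h0, hk⟩ hf
    obtain ⟨y, ⟨b1, b2, b3⟩, -⟩ := H.head h' 1
    have s1 := H.same _ _ b1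
    obtain ⟨x, ⟨c1, c2, c3⟩, -⟩ := H.H2 y (Or.inl ⟨b2, by rw [← s1.2.1]; exact hf⟩) b3
    have hx : (c x).role = 0 := by
      rcases c3 with c3 | c3
      · exact c3.1
      · rw [b2] at c3
        exact absurd c3.2 (by decide)
    have nb := (H.nb _ _ c1).1 hx b2
    exact ⟨⟨x, hx, c2⟩, nb.1, hf, y, H.e1.symm b1, b2, b3, c1⟩
  R3 := by
    rintro ⟨h, h0, hk⟩ ⟨h', h0', hk'⟩ ⟨h'', h0'', hk''⟩ ⟨-, -, y, hy1, hy2, hy3, hy4⟩ ⟨-, -, z, hz1, hz2, hz3, hz4⟩
    have e : E1 y z := (H.cell y z (by rw [hy2, hz2])).2 (H.e2.trans (H.e2.symm hy4) hz4)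
    exact Subtype.ext (head_uniq H (H.e1.trans (H.e1.symm hy1) (H.e1.trans e hz1)) (by rw [h0', h0'']) hk' hk'')
  U1 := by
    rintro ⟨h, h0, hk⟩ hf
    obtain ⟨x, ⟨d1, d2, d3⟩, -⟩ := H.head h 2
    have s2 := H.same _ _ d1
    obtain ⟨b, hb, -⟩ := H.G1 x (Or.inr ⟨d2, by rw [← s2.2.2.2.2]; exact hf⟩)
    obtain ⟨e1, e2⟩ := H.gG _ _ hb
    have hrb : (c b).role = 3 := by
      rcases e2 with e2 | e2
      · rw [d2] at e2
        exact absurd e2.1 (by decide)
      · exact e2.2.1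
    obtain ⟨h', ⟨a1, a2, a3⟩, -⟩ := H.head b 0
    obtain ⟨y, ⟨b1, b2, b3⟩, -⟩ := H.head b 3
    have nb := (H.nb _ _ e1).2 d2 hrb
    have s1 := H.same _ _ a1
    refine ⟨⟨h', a2, a3⟩, hf, ?_, x, y, d1, d2, d3, H.e1.trans (H.e1.symm b1) a1, b2, b3, ?_⟩
    · show (c h').fd = false
      rw [← s1.2.2.2.1]
      exact nb.2.1
    · exact H.e2.trans e1 ((H.cell b y (by rw [hrb, b2])).1 b1)
  U2 := by
    rintro ⟨h', h0, hk⟩ hf
    obtain ⟨y, ⟨b1, b2, b3⟩, -⟩ := H.head h' 3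
    have s1 := H.same _ _ b1
    obtain ⟨x, ⟨c1, c2, c3⟩, -⟩ := H.H2 y (Or.inr ⟨b2, by rw [← s1.2.2.2.1]; exact hf⟩) b3
    have hx : (c x).role = 2 := by
      rcases c3 with c3 | c3
      · rw [b2] at c3
        exact absurd c3.2 (by decide)
      · exact c3.1
    have nb := (H.nb _ _ c1).2 hx b2
    obtain ⟨h, ⟨a1, a2, a3⟩, -⟩ := H.head x 0
    have s2 := H.same _ _ a1
    refine ⟨⟨h, a2, a3⟩, ?_, hf, x, y, H.e1.symm a1, hx, c2, H.e1.symm b1, b2, b3, c1⟩
    show (c h).fu = false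
    rw [← s2.2.2.2.2]
    exact nb.1
  U3 := by
    rintro ⟨h, h0, hk⟩ ⟨h', h0', hk'⟩ ⟨h'', h0'', hk''⟩ ⟨-, -, x, y, hx1, hx2, hx3, hy1, hy2, hy3, hy4⟩
      ⟨-, -, x', z, hx1', hx2', hx3', hz1, hz2, hz3, hz4⟩
    have e0 : E2 x x' := (H.cell x x' (by rw [hx2, hx2'])).1 (H.e1.trans (H.e1.symm hx1) hx1')
    have e : E1 y z := (H.cell y z (by rw [hy2, hz2])).2 (H.e2.trans (H.e2.symm hy4) (H.e2.trans e0 hz4))
    exact Subtype.ext (head_uniq H (H.e1.trans (H.e1.symm hy1) (H.e1.trans e hz1)) (by rw [h0', h0'']) hk' hk'')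
  hl := by
    rintro ⟨h, h0, hk⟩ hf
    show nrk E1 c h 0 1 = 0
    unfold nrk
    haveI : IsEmpty {y : M // E1 h y ∧ (c y).role = 0 ∧ (c y).kind = 1} := by
      refine ⟨fun y => ?_⟩
      obtain ⟨y, y1, y2, y3⟩ := y
      have s1 := H.same _ _ y1
      exact ((H.one y).1 (by rw [← s1.2.1]; exact hf)).2 y3
    exact Nat.card_of_isEmpty
  hd := by
    rintro ⟨h, h0, hk⟩ hf
    show nrk E1 c h 0 2 = 0
    unfold nrk
    haveI : IsEmpty {y : M // E1 h y ∧ (c y).role = 0 ∧ (c y).kind = 2} := by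
      refine ⟨fun y => ?_⟩
      obtain ⟨y, y1, y2, y3⟩ := y
      have s1 := H.same _ _ y1
      exact ((H.one y).2.2.1 (by rw [← s1.2.2.2.1]; exact hf)).2 y3
    exact Nat.card_of_isEmpty
  o := by
    obtain ⟨x, ⟨x1, x2, x3, x4⟩, hx⟩ := H.org
    exact ⟨⟨x, x1, x2⟩, ⟨x3, x4⟩, fun y hy => Subtype.ext (hx y.1 ⟨y.2.1, y.2.2, hy.1, hy.2⟩)⟩
  hc := by
    rintro ⟨h, h0, hk⟩ hf hf'
    show nrk E1 c h 0 1 = nrk E1 c h 0 2
    refine h80_card_eq (fun a b => Q a.1 b.1) ?_ ?_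
    · rintro ⟨a, a1, a2, a3⟩
      have s1 := H.same _ _ a1
      obtain ⟨b, hb, hb'⟩ := H.Q1 a ⟨a2, a3, by rw [← s1.2.2.1]; exact hf, by rw [← s1.2.2.2.2]; exact hf'⟩
      obtain ⟨e1, e2, e3⟩ := H.qQ _ _ hb
      exact ⟨⟨b, H.e1.trans a1 e1, e3.1, e3.2.1⟩, hb, fun z hz => Subtype.ext (hb' z.1 hz)⟩
    · rintro ⟨a, a1, a2, a3⟩
      have s1 := H.same _ _ a1
      obtain ⟨b, hb, hb'⟩ := H.Q2 a ⟨a2, a3, by rw [← s1.2.2.1]; exact hf, by rw [← s1.2.2.2.2]; exact hf'⟩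
      obtain ⟨e1, e2, e3⟩ := H.qQ _ _ hb
      exact ⟨⟨b, H.e1.trans a1 (H.e1.symm e1), e2.1, e2.2.1⟩, hb, fun z hz => Subtype.ext (hb' z.1 hz)⟩

end

end Pool.Agent.Helper80.TE
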